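import Mathlib
import Pool.Agent.H48.CN.Padic

set_option autoImplicit false

/-!
# Points with non-integral `x`-coordinate have infinite order

For `Y^2 = X^3 + A X^2 + B X + C` with `p`-integral coefficients, all primes `p` (also `p = 2`).
-/

namespace Pool.Agent.helper45.Tw

open WeierstrassCurve WeierstrassCurve.Affine H48.CN

variable {p : ℕ} [hp : Fact p.Prime]

lemma pv_sub_le' {a b : ℚ} {c : ℝ} (ha : pv p a ≤ c) (hb : pv p b ≤ c) : pv p (a - b) ≤ c := by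
  rw [sub_eq_add_neg]
  exact pv_add_le' p ha (by rw [pv_neg]; exact hb)

lemma pv_div (a b : ℚ) : pv p (a / b) = pv p a / pv p b := by
  unfold pv; rw [Rat.cast_div]; exact norm_div _ _

lemma pv_inv (a : ℚ) : pv p a⁻¹ = (pv p a)⁻¹ := by
  unfold pv; rw [Rat.cast_inv]; exact norm_inv _

/-- a small perturbation of `1` is a unit -/
lemma pv_one_add {a : ℚ} (ha : pv p a < 1) : pv p (1 + a) = 1 := by
  rw [pv_add_eq p (by rw [pv_one]; exact ha), pv_one]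

lemma pv_mul_le {a b : ℚ} {c d : ℝ} (ha : pv p a ≤ c) (hb : pv p b ≤ d) :
    pv p (a * b) ≤ c * d := by
  rw [pv_mul]
  exact mul_le_mul ha hb (pv_nonneg p b) ((pv_nonneg p a).trans ha)

variable {A B C : ℚ}

lemma Y_large' (hA : A ∈ OO p) (hB : B ∈ OO p) (hC : C ∈ OO p) {X Y : ℚ}
    (e : Y ^ 2 = X ^ 3 + A * X ^ 2 + B * X + C) (hX : 1 < pv p X) : pv p Y ^ 2 = pv p X ^ 3 := by
  rw [← pv_pow, ← pv_pow, e]
  have h1 : X ^ 3 + A * X ^ 2 + B * X + C = X ^ 3 + (A * X ^ 2 + (B * X + C)) := by ring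
  rw [h1]
  apply pv_add_eq
  have h2 : pv p X ^ 2 < pv p X ^ 3 := pow_lt_pow_right₀ hX (by norm_num)
  rw [pv_pow]
  refine lt_of_le_of_lt ?_ h2
  have hXX : pv p X ≤ pv p X ^ 2 := by nlinarith
  have hA' : pv p A ≤ 1 := hA
  have hB' : pv p B ≤ 1 := hB
  have hC' : pv p C ≤ 1 := hC
  apply pv_add_le'
  · rw [pv_mul, pv_pow]
    calc pv p A * pv p X ^ 2 ≤ 1 * pv p X ^ 2 :=
          mul_le_mul_of_nonneg_right hA' (sq_nonneg _)
      _ = pv p X ^ 2 := one_mul _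
  · apply pv_add_le'
    · rw [pv_mul]
      calc pv p B * pv p X ≤ 1 * pv p X := mul_le_mul_of_nonneg_right hB' (pv_nonneg p X)
        _ ≤ pv p X ^ 2 := by rw [one_mul]; exact hXX
    · nlinarith

lemma X_large (hA : A ∈ OO p) (hB : B ∈ OO p) (hC : C ∈ OO p) {X Y : ℚ}
    (e : Y ^ 2 = X ^ 3 + A * X ^ 2 + B * X + C) (hY : 1 < pv p Y) : 1 < pv p X := by
  by_contra h
  push Not at h
  have hX : X ∈ OO p := h
  have h1 : Y ^ 2 ∈ OO p := by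
    rw [e]
    exact add_mem (add_mem (add_mem (pow_mem hX 3) (mul_mem hA (pow_mem hX 2)))
      (mul_mem hB hX)) hC
  have h2 : pv p Y ^ 2 ≤ 1 := by rw [← pv_pow]; exact h1
  have h3 : 1 < pv p Y ^ 2 := one_lt_pow₀ hY two_ne_zero
  linarith

/-- The sum of two points of the formal group, in coordinates: `x₁, x₂` have absolute value
`≥ R ^ 2`, the line through the points is `y = l x + μ`. -/
lemma key_coord (hA : A ∈ OO p) (hB : B ∈ OO p) (hC : C ∈ OO p) {R : ℝ} (hR : 1 < R)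
    {x₁ y₁ x₂ y₂ x₃ y₃ l : ℚ} (e₁ : y₁ ^ 2 = x₁ ^ 3 + A * x₁ ^ 2 + B * x₁ + C)
    (e₂ : y₂ ^ 2 = x₂ ^ 3 + A * x₂ ^ 2 + B * x₂ + C)
    (e₃ : y₃ ^ 2 = x₃ ^ 3 + A * x₃ ^ 2 + B * x₃ + C)
    (h₁ : R ^ 2 ≤ pv p x₁) (h₂ : R ^ 2 ≤ pv p x₂)
    (r1 : l * (x₁ - x₂) = y₁ - y₂)
    (r2 : l * (y₁ + y₂) = x₁ ^ 2 + x₁ * x₂ + x₂ ^ 2 + A * (x₁ + x₂) + B)
    (r3 : x₃ = l ^ 2 - A - x₁ - x₂) (r4 : y₃ = -(y₁ + l * (x₃ - x₁))) :
    R ^ 2 ≤ pv p x₃ ∧ pv p (x₃ / y₃ - x₁ / y₁ - x₂ / y₂) ≤ (R ^ 3)⁻¹ := by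
  have hR0 : 0 < R := by linarith
  have hR2 : 1 < R ^ 2 := one_lt_pow₀ hR two_ne_zero
  have hR3 : 1 < R ^ 3 := one_lt_pow₀ hR three_ne_zero
  have hA' : pv p A ≤ 1 := hA
  have hB' : pv p B ≤ 1 := hB
  have hC' : pv p C ≤ 1 := hC
  -- sizes of `t` and `w`
  have size : ∀ {x y : ℚ}, y ^ 2 = x ^ 3 + A * x ^ 2 + B * x + C → R ^ 2 ≤ pv p x →
      R ^ 3 ≤ pv p y ∧ pv p (x / y) ≤ R⁻¹ ∧ pv p (1 / y) ≤ (R ^ 3)⁻¹ ∧
        pv p x * R ≤ pv p y := by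
    intro x y e hx
    have hx1 : 1 < pv p x := by linarith
    have hy := Y_large' hA hB hC e hx1
    have hy0 := pv_nonneg p y
    have h1 : R ^ 3 ≤ pv p y := by
      by_contra hcon
      push Not at hcon
      have h2 : pv p y ^ 2 < (R ^ 3) ^ 2 := pow_lt_pow_left₀ hcon hy0 two_ne_zero
      have h3 : (R ^ 2) ^ 3 ≤ pv p x ^ 3 := pow_le_pow_left₀ (by positivity) hx 3
      rw [hy] at h2
      have h4 : (R ^ 3) ^ 2 = (R ^ 2) ^ 3 := by ring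
      linarith
    have h4 : pv p x * R ≤ pv p y := by
      by_contra hcon
      push Not at hcon
      have h2 : pv p y ^ 2 < (pv p x * R) ^ 2 := pow_lt_pow_left₀ hcon hy0 two_ne_zero
      rw [hy] at h2
      have h3 : (pv p x * R) ^ 2 ≤ pv p x ^ 3 := by
        have : (pv p x * R) ^ 2 = pv p x ^ 2 * R ^ 2 := by ring
        rw [this]
        have h5 : pv p x ^ 3 = pv p x ^ 2 * pv p x := by ring
        rw [h5]
        exact mul_le_mul_of_nonneg_left hx (sq_nonneg _)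
      linarith
    have hypos : 0 < pv p y := by linarith
    refine ⟨h1, ?_, ?_, h4⟩
    · rw [pv_div, div_le_iff₀ hypos, ← div_eq_inv_mul, le_div_iff₀ hR0]
      exact h4
    · rw [pv_div, pv_one, one_div]
      exact inv_anti₀ (by positivity) h1
  obtain ⟨a1, a2, a3, a4⟩ := size e₁ h₁
  obtain ⟨b1, b2, b3, b4⟩ := size e₂ h₂
  have hy1 : y₁ ≠ 0 := by
    rintro rfl
    rw [pv_zero] at a1
    linarith
  have hy2 : y₂ ≠ 0 := by
    rintro rfl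
    rw [pv_zero] at b1
    linarith
  set μ : ℚ := y₁ - l * x₁ with hμ
  have f1 : y₁ = l * x₁ + μ := by rw [hμ]; ring
  have f2 : y₂ = l * x₂ + μ := by rw [hμ]; linear_combination r1
  set t₁ : ℚ := x₁ / y₁ with ht₁
  set t₂ : ℚ := x₂ / y₂ with ht₂
  set w₁ : ℚ := 1 / y₁ with hw₁
  set w₂ : ℚ := 1 / y₂ with hw₂
  have tx1 : t₁ * y₁ = x₁ := div_mul_cancel₀ _ hy1
  have tx2 : t₂ * y₂ = x₂ := div_mul_cancel₀ _ hy2
  have wy1 : w₁ * y₁ = 1 := div_mul_cancel₀ _ hy1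
  have wy2 : w₂ * y₂ = 1 := div_mul_cancel₀ _ hy2
  set D : ℚ := 1 + -(A * t₂ ^ 2 + B * (t₂ * (w₁ + w₂)) + C * (w₁ ^ 2 + w₁ * w₂ + w₂ ^ 2)) with hD
  set M : ℚ := t₁ ^ 2 + t₁ * t₂ + t₂ ^ 2 + A * ((t₁ + t₂) * w₁) + B * w₁ ^ 2 with hM
  -- the slope
  have hlD : l * D = -(μ * M) := by
    have hBe : B = l ^ 2 * (x₁ + x₂) + 2 * l * μ - x₁ ^ 2 - x₁ * x₂ - x₂ ^ 2 - A * (x₁ + x₂) := by
      rw [f1, f2] at r2
      linear_combination -r2
    have hCe : C = (l * x₁ + μ) ^ 2 - x₁ ^ 3 - A * x₁ ^ 2 - B * x₁ := by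
      rw [f1] at e₁
      linear_combination -e₁
    have h0 : y₁ ^ 2 * y₂ ^ 2 ≠ 0 := mul_ne_zero (pow_ne_zero 2 hy1) (pow_ne_zero 2 hy2)
    apply mul_left_cancel₀ h0
    have eD : y₁ ^ 2 * y₂ ^ 2 * D = y₁ ^ 2 * y₂ ^ 2 - (A * x₂ ^ 2 * y₁ ^ 2 +
        B * (x₂ * y₁ * (y₁ + y₂)) + C * (y₂ ^ 2 + y₁ * y₂ + y₁ ^ 2)) := by
      rw [hD, ht₂, hw₁, hw₂]
      field_simp
      ring
    have eM : y₁ ^ 2 * y₂ ^ 2 * M = x₁ ^ 2 * y₂ ^ 2 + x₁ * x₂ * y₁ * y₂ + x₂ ^ 2 * y₁ ^ 2 +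
        A * ((x₁ * y₂ + x₂ * y₁) * y₂) + B * y₂ ^ 2 := by
      rw [hM, ht₁, ht₂, hw₁]
      field_simp
    have e5 : l * (y₁ ^ 2 * y₂ ^ 2 * D) + μ * (y₁ ^ 2 * y₂ ^ 2 * M) = 0 := by
      rw [eD, eM, hCe, hBe, f1, f2]
      ring
    linear_combination e5
  have hRi : R⁻¹ < 1 := inv_lt_one_of_one_lt₀ hR
  have hRi0 : 0 < R⁻¹ := inv_pos.2 hR0
  have hRi2 : (R⁻¹) ^ 2 < 1 := pow_lt_one₀ hRi0.le hRi two_ne_zero
  have e3i : (R ^ 3)⁻¹ = (R⁻¹) ^ 3 := by rw [inv_pow]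
  have hRi32 : (R⁻¹) ^ 3 ≤ (R⁻¹) ^ 2 := pow_le_pow_of_le_one hRi0.le hRi.le (by norm_num)
  have hRi3 : (R⁻¹) ^ 3 < 1 := lt_of_le_of_lt hRi32 hRi2
  rw [e3i] at a3 b3
  set ρ : ℝ := R⁻¹ with hρ
  have hρ1 : ρ ≤ 1 := hRi.le
  -- `|M| ≤ ρ ^ 2`, `|D| = 1`
  have ww : pv p (w₁ + w₂) ≤ ρ ^ 3 := pv_add_le' p a3 b3
  have m2 : ∀ {a b : ℚ}, pv p a ≤ ρ → pv p b ≤ ρ → pv p (a * b) ≤ ρ ^ 2 := by
    intro a b ha hb
    rw [sq]
    exact pv_mul_le ha hb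
  have hw1' : pv p w₁ ≤ ρ := a3.trans (by
    calc ρ ^ 3 ≤ ρ ^ 1 := pow_le_pow_of_le_one hRi0.le hρ1 (by norm_num)
      _ = ρ := pow_one ρ)
  have hw2' : pv p w₂ ≤ ρ := b3.trans (by
    calc ρ ^ 3 ≤ ρ ^ 1 := pow_le_pow_of_le_one hRi0.le hρ1 (by norm_num)
      _ = ρ := pow_one ρ)
  have mc : ∀ {a c : ℚ}, pv p a ≤ ρ ^ 2 → pv p c ≤ 1 → pv p (c * a) ≤ ρ ^ 2 := by
    intro a c ha hc
    have := pv_mul_le hc ha
    rwa [one_mul] at this
  have hMle : pv p M ≤ ρ ^ 2 := by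
    rw [hM]
    refine pv_add_le' p (pv_add_le' p (pv_add_le' p (pv_add_le' p ?_ ?_) ?_) ?_) ?_
    · rw [sq]; exact m2 a2 a2
    · exact m2 a2 b2
    · rw [sq]; exact m2 b2 b2
    · exact mc (m2 (pv_add_le' p a2 b2) hw1') hA'
    · rw [sq]; exact mc (m2 hw1' hw1') hB'
  have hD1 : pv p D = 1 := by
    rw [hD]
    apply pv_one_add
    rw [pv_neg]
    refine lt_of_le_of_lt ?_ hRi2
    refine pv_add_le' p (pv_add_le' p ?_ ?_) ?_
    · rw [sq]; exact mc (m2 b2 b2) hA'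
    · exact mc (m2 b2 (pv_add_le' p hw1' hw2')) hB'
    · refine mc (pv_add_le' p (pv_add_le' p ?_ ?_) ?_) hC'
      · rw [sq]; exact m2 hw1' hw1'
      · exact m2 hw1' hw2'
      · rw [sq]; exact m2 hw2' hw2'
  -- `|l| ≤ ρ ^ 2 |μ|` and `|μ| ≥ R ^ 3`
  have hl : pv p l ≤ pv p μ * ρ ^ 2 := by
    have h := congrArg (pv p) hlD
    rw [pv_mul, hD1, mul_one, pv_neg, pv_mul] at h
    rw [h]
    exact mul_le_mul_of_nonneg_left hMle (pv_nonneg p μ)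
  have hρR : ρ * R = 1 := inv_mul_cancel₀ hR0.ne'
  have hμR : R ^ 3 ≤ pv p μ := by
    have h5 : pv p y₁ ≤ pv p μ * ρ ^ 2 * pv p x₁ := by
      rw [f1]
      refine pv_add_le' p ?_ ?_
      · rw [pv_mul]
        exact mul_le_mul_of_nonneg_right hl (pv_nonneg p _)
      · have h6 : 1 ≤ ρ ^ 2 * pv p x₁ := by
          calc (1 : ℝ) = ρ ^ 2 * R ^ 2 := by rw [← mul_pow, hρR, one_pow]
            _ ≤ ρ ^ 2 * pv p x₁ := mul_le_mul_of_nonneg_left h₁ (sq_nonneg _)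
        rw [mul_assoc]
        exact le_mul_of_one_le_right (pv_nonneg p μ) h6
    have hx0 : 0 < pv p x₁ := by linarith
    have h7 : pv p x₁ * R ≤ pv p μ * ρ ^ 2 * pv p x₁ := a4.trans h5
    have h8 : R ≤ pv p μ * ρ ^ 2 := by
      rw [mul_comm (pv p x₁) R] at h7
      exact le_of_mul_le_mul_right h7 hx0
    calc R ^ 3 = R * R ^ 2 := by ring
      _ ≤ pv p μ * ρ ^ 2 * R ^ 2 := mul_le_mul_of_nonneg_right h8 (sq_nonneg _)
      _ = pv p μ * (ρ * R) ^ 2 := by ring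
      _ = pv p μ := by rw [hρR]; ring
  have hμpos : 0 < pv p μ := by linarith
  have hμ0 : μ ≠ 0 := by
    intro h
    rw [h, pv_zero] at hμpos
    exact lt_irrefl _ hμpos
  -- `L = - l / μ`, `v = 1 / μ`
  set L : ℚ := -(l / μ) with hL
  set v : ℚ := 1 / μ with hv
  have hLle : pv p L ≤ ρ ^ 2 := by
    rw [hL, pv_neg, pv_div, div_le_iff₀ hμpos, mul_comm]
    exact hl
  have hvle : pv p v ≤ ρ ^ 3 := by
    rw [hv, pv_div, pv_one, one_div, hρ, inv_pow]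
    exact inv_anti₀ (by positivity) hμR
  have hL1 : pv p L ≤ 1 := hLle.trans hRi2.le
  have hLO : L ∈ OO p := hL1
  set U : ℚ := 1 + (A + B * L + C * L ^ 2) * L with hU
  have hU1 : pv p U = 1 := by
    rw [hU]
    apply pv_one_add
    have h9 : pv p (A + B * L + C * L ^ 2) ≤ 1 :=
      add_mem (add_mem hA (mul_mem hB hLO)) (mul_mem hC (pow_mem hLO 2))
    have := pv_mul_le h9 hLle
    rw [one_mul] at this
    exact lt_of_le_of_lt this hRi2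
  -- the symmetric functions
  have s2 : x₁ * x₂ + x₁ * x₃ + x₂ * x₃ = B - 2 * l * μ := by
    rw [r3]
    rw [f1, f2] at r2
    linear_combination r2
  have s3 : x₁ * x₂ * x₃ = μ ^ 2 - C := by
    rw [f1] at e₁
    linear_combination -e₁ - x₁ ^ 2 * r3 + x₁ * s2
  have f3 : -y₃ = l * x₃ + μ := by rw [r4, f1]; ring
  have hprod : y₁ * y₂ * (-y₃) = U * μ ^ 3 := by
    have h10 : U * μ ^ 3 = μ ^ 3 - A * l * μ ^ 2 + B * l ^ 2 * μ - C * l ^ 3 := by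
      rw [hU, hL]
      field_simp
      ring
    rw [h10, f1, f2, f3]
    have hs1 : x₁ + x₂ + x₃ = l ^ 2 - A := by rw [r3]; ring
    linear_combination l ^ 3 * s3 + l ^ 2 * μ * s2 + l * μ ^ 2 * hs1
  have hy3 : y₃ ≠ 0 := by
    intro h0
    rw [h0, neg_zero, mul_zero] at hprod
    have h11 : pv p (U * μ ^ 3) = 0 := by rw [← hprod, pv_zero]
    rw [pv_mul, hU1, one_mul, pv_pow] at h11
    exact absurd h11 (pow_ne_zero 3 hμpos.ne')
  have hsum : x₃ / y₃ - x₁ / y₁ - x₂ / y₂ = v * (A + 2 * B * L + 3 * C * L ^ 2) / U := by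
    have hU0 : U ≠ 0 := by
      intro h
      rw [h, pv_zero] at hU1
      norm_num at hU1
    have hs1 : x₁ + x₂ + x₃ = l ^ 2 - A := by rw [r3]; ring
    have hnum : x₁ * (y₂ * -y₃) + x₂ * (y₁ * -y₃) + x₃ * (y₁ * y₂) =
        -(3 * C * l ^ 2 - 2 * B * l * μ + A * μ ^ 2) := by
      rw [f3, f1, f2]
      linear_combination 3 * l ^ 2 * s3 + 2 * l * μ * s2 + μ ^ 2 * hs1
    have e6 : x₃ / y₃ - x₁ / y₁ - x₂ / y₂ =
        -(x₁ * (y₂ * -y₃) + x₂ * (y₁ * -y₃) + x₃ * (y₁ * y₂)) / (y₁ * y₂ * (-y₃)) := by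
      field_simp
      ring
    rw [e6, hnum, hprod, hv, hL]
    field_simp
    ring
  have hbound : pv p (x₃ / y₃ - x₁ / y₁ - x₂ / y₂) ≤ ρ ^ 3 := by
    rw [hsum, pv_div, hU1, div_one]
    have h12 : pv p (A + 2 * B * L + 3 * C * L ^ 2) ≤ 1 :=
      add_mem (add_mem hA (mul_mem (mul_mem (ofNat_mem_OO p 2) hB) hLO))
        (mul_mem (mul_mem (ofNat_mem_OO p 3) hC) (pow_mem hLO 2))
    have := pv_mul_le hvle h12
    rwa [mul_one] at this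
  refine ⟨?_, by rw [e3i]; exact hbound⟩
  -- `|t₃| ≤ ρ`, `|w₃| ≤ ρ ^ 3`
  have ht3 : pv p (x₃ / y₃) ≤ ρ := by
    have e7 : x₃ / y₃ = (x₃ / y₃ - x₁ / y₁ - x₂ / y₂) + (t₁ + t₂) := by rw [ht₁, ht₂]; ring
    rw [e7]
    refine pv_add_le' p (hbound.trans ?_) (pv_add_le' p a2 b2)
    calc ρ ^ 3 ≤ ρ ^ 1 := pow_le_pow_of_le_one hRi0.le hρ1 (by norm_num)
      _ = ρ := pow_one ρ
  have hw3 : pv p (1 / y₃) ≤ ρ ^ 3 := by
    have e8 : 1 / y₃ = L * (x₃ / y₃) + -v := by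
      rw [hL, hv]
      field_simp
      linear_combination -f3
    rw [e8]
    refine pv_add_le' p ?_ (by rw [pv_neg]; exact hvle)
    have := pv_mul_le hLle ht3
    calc _ ≤ ρ ^ 2 * ρ := this
      _ = ρ ^ 3 := by ring
  have hy3R : R ^ 3 ≤ pv p y₃ := by
    have hpos : 0 < pv p y₃ := lt_of_le_of_ne (pv_nonneg p _) (fun h => hy3 ((pv_eq_zero p).1 h.symm))
    rw [pv_div, pv_one, one_div, hρ, inv_pow] at hw3
    exact (inv_le_inv₀ hpos (by positivity)).1 hw3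
  have hx3 : 1 < pv p x₃ := X_large hA hB hC e₃ (by linarith)
  have hY3 := Y_large' hA hB hC e₃ hx3
  by_contra hcon
  push Not at hcon
  have h13 : pv p x₃ ^ 3 < (R ^ 2) ^ 3 := pow_lt_pow_left₀ hcon (pv_nonneg p _) three_ne_zero
  have h14 : (R ^ 3) ^ 2 ≤ pv p y₃ ^ 2 := pow_le_pow_left₀ (by positivity) hy3R 2
  rw [hY3] at h14
  have h15 : (R ^ 3) ^ 2 = (R ^ 2) ^ 3 := by ring
  linarith

/-- the points of the formal group at level `R` -/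
def InE (p : ℕ) [Fact p.Prime] (R : ℝ) (P : (Wc A B C).Point) : Prop :=
  ∀ (x y : ℚ) (h : (Wc A B C).Nonsingular x y), P = Point.some x y h → R ^ 2 ≤ pv p x

/-- the coordinate `x / y` -/
def tt : (Wc A B C).Point → ℚ
  | .zero => 0
  | .some x y _ => x / y

lemma tt_zero : tt (0 : (Wc A B C).Point) = 0 := rfl

lemma tt_some {x y : ℚ} (h : (Wc A B C).Nonsingular x y) : tt (Point.some x y h) = x / y := rfl

lemma InE_zero (R : ℝ) : InE p R (0 : (Wc A B C).Point) := by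
  intro x y h hP
  exact absurd hP.symm (Point.some_ne_zero h)

lemma InE_some {R : ℝ} {x y : ℚ} (h : (Wc A B C).Nonsingular x y) (hx : R ^ 2 ≤ pv p x) :
    InE p R (Point.some x y h) := by
  intro x' y' h' hP
  injection hP with h1 h2
  rw [← h1]
  exact hx

lemma key (hA : A ∈ OO p) (hB : B ∈ OO p) (hC : C ∈ OO p) {R : ℝ} (hR : 1 < R)
    {P Q : (Wc A B C).Point} (hP : InE p R P) (hQ : InE p R Q) :
    InE p R (P + Q) ∧ pv p (tt (P + Q) - tt P - tt Q) ≤ (R ^ 3)⁻¹ := by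
  have hR0 : 0 < R := by linarith
  rcases P with _ | ⟨x₁, y₁, h₁⟩
  · change InE p R (0 + Q) ∧ pv p (tt (0 + Q) - tt 0 - tt Q) ≤ (R ^ 3)⁻¹
    rw [zero_add, tt_zero, sub_zero, sub_self, pv_zero]
    exact ⟨hQ, by positivity⟩
  rcases Q with _ | ⟨x₂, y₂, h₂⟩
  · change InE p R (Point.some x₁ y₁ h₁ + 0) ∧
      pv p (tt (Point.some x₁ y₁ h₁ + 0) - tt (Point.some x₁ y₁ h₁) - tt 0) ≤ (R ^ 3)⁻¹
    rw [add_zero, tt_zero, sub_zero, sub_self, pv_zero]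
    exact ⟨hP, by positivity⟩
  have hx1 := hP x₁ y₁ h₁ rfl
  have hx2 := hQ x₂ y₂ h₂ rfl
  by_cases h : x₁ = x₂ ∧ y₁ = -y₂
  · have h0 : Point.some x₁ y₁ h₁ + Point.some x₂ y₂ h₂ = (0 : (Wc A B C).Point) :=
      Point.add_of_Y_eq h.1 (by rw [negY_eq]; exact h.2)
    rw [h0, tt_zero, tt_some, tt_some, h.1, h.2, zero_sub, div_neg, neg_neg, sub_self, pv_zero]
    exact ⟨InE_zero R, by positivity⟩
  · obtain ⟨l, x₃, y₃, h₃, hs, r1, r2, r3, r4⟩ := add_rel h₁ h₂ h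
    rw [hs, tt_some, tt_some, tt_some]
    obtain ⟨k1, k2⟩ := key_coord hA hB hC hR (eqn_iff.1 h₁.1) (eqn_iff.1 h₂.1) (eqn_iff.1 h₃.1)
      hx1 hx2 r1 r2 r3 r4
    exact ⟨InE_some h₃ k1, k2⟩

lemma key_mul (hA : A ∈ OO p) (hB : B ∈ OO p) (hC : C ∈ OO p) {R : ℝ} (hR : 1 < R)
    {P : (Wc A B C).Point} (hP : InE p R P) (m : ℕ) :
    InE p R (m • P) ∧ pv p (tt (m • P) - m * tt P) ≤ (R ^ 3)⁻¹ := by
  have hR0 : 0 < R := by linarith
  induction m with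
  | zero =>
    rw [zero_nsmul, tt_zero, Nat.cast_zero, zero_mul, sub_self, pv_zero]
    exact ⟨InE_zero R, by positivity⟩
  | succ m ih =>
    obtain ⟨i1, i2⟩ := ih
    obtain ⟨k1, k2⟩ := key hA hB hC hR i1 hP
    rw [succ_nsmul]
    refine ⟨k1, ?_⟩
    have e : tt (m • P + P) - ((m + 1 : ℕ) : ℚ) * tt P =
        (tt (m • P + P) - tt (m • P) - tt P) + (tt (m • P) - m * tt P) := by
      push_cast
      ring
    rw [e]
    exact pv_add_le' p k2 i2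

/-- D: points with non-integral `x` have infinite order -/
theorem inf_of_pv {p : ℕ} [Fact p.Prime] {A B C : ℚ} (hA : A ∈ OO p) (hB : B ∈ OO p)
    (hC : C ∈ OO p) {x y : ℚ} (h : (Wc A B C).Nonsingular x y) (hx : 1 < pv p x) {n : ℕ}
    (hn : 0 < n) : n • (Point.some x y h : (Wc A B C).Point) ≠ 0 := by
  intro h0
  set P : (Wc A B C).Point := Point.some x y h with hP
  have hPne : P ≠ 0 := Point.some_ne_zero h
  set R : ℝ := Real.sqrt (pv p x) with hR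
  have hR1 : 1 < R := by
    rw [hR, Real.lt_sqrt (by norm_num)]
    simpa using hx
  have hR2 : R ^ 2 = pv p x := Real.sq_sqrt (pv_nonneg p x)
  have hPE : InE p R P := InE_some h hR2.le
  have hN : 0 < addOrderOf P := addOrderOf_pos_iff.2 (isOfFinAddOrder_iff_nsmul_eq_zero.2
    ⟨n, hn, h0⟩)
  have hN1 : addOrderOf P ≠ 1 := fun h => hPne (AddMonoid.addOrderOf_eq_one_iff.1 h)
  set q := (addOrderOf P).minFac with hq
  have hqp : q.Prime := Nat.minFac_prime hN1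
  obtain ⟨k, hk⟩ := Nat.minFac_dvd (addOrderOf P)
  rw [← hq] at hk
  have hk0 : 0 < k := by
    rcases Nat.eq_zero_or_pos k with h1 | h1
    · rw [h1, mul_zero] at hk
      omega
    · exact h1
  have hkP : k • P ≠ 0 := by
    intro h1
    have h2 := addOrderOf_dvd_of_nsmul_eq_zero h1
    have h3 := Nat.le_of_dvd hk0 h2
    have h4 := hqp.two_le
    nlinarith
  have hqP : q • (k • P) = 0 := by
    rw [← mul_nsmul', ← hk, addOrderOf_nsmul_eq_zero]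
  obtain ⟨i1, -⟩ := key_mul hA hB hC hR1 hPE k
  -- the point of prime order
  rcases hPc : k • P with _ | ⟨x', y', h'⟩
  · exact hkP hPc
  have hx' : R ^ 2 ≤ pv p x' := i1 x' y' h' hPc
  have hx1 : 1 < pv p x' := lt_of_lt_of_le (one_lt_pow₀ hR1 two_ne_zero) hx'
  set R' : ℝ := Real.sqrt (pv p x') with hR'
  have hR1' : 1 < R' := by
    rw [hR', Real.lt_sqrt (by norm_num)]
    simpa using hx1
  have hR2' : R' ^ 2 = pv p x' := Real.sq_sqrt (pv_nonneg p x')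
  have e' := eqn_iff.1 h'.1
  have hy' := Y_large' hA hB hC e' hx1
  have hyR : pv p y' = R' ^ 3 := by
    have h5 : pv p y' ^ 2 = (R' ^ 3) ^ 2 := by
      rw [hy', ← hR2']; ring
    exact (pow_left_inj₀ (pv_nonneg p y') (by positivity) two_ne_zero).1 h5
  have hR0' : 0 < R' := by linarith
  obtain ⟨-, i2⟩ := key_mul hA hB hC hR1' (InE_some h' hR2'.le) q
  rw [hPc] at hqP
  rw [hqP, tt_zero, tt_some, zero_sub, pv_neg, pv_mul, pv_div, hyR, ← hR2'] at i2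
  have i3 : pv p (q : ℚ) * R' ^ 2 ≤ 1 := by
    have e9 : pv p (q : ℚ) * (R' ^ 2 / R' ^ 3) = (pv p (q : ℚ) * R' ^ 2) * (R' ^ 3)⁻¹ := by
      rw [div_eq_mul_inv, mul_assoc]
    rw [e9] at i2
    have hpos : 0 < (R' ^ 3)⁻¹ := by positivity
    have := (mul_le_iff_le_one_left hpos).1 i2
    exact this
  rw [hR2'] at i3
  -- `|q| ≥ 1 / p`
  have hp1 : 1 < (p : ℝ) := by exact_mod_cast (Fact.out : p.Prime).one_lt
  have hqle : (p : ℝ)⁻¹ ≤ pv p (q : ℚ) := by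
    by_cases hqe : q = p
    · rw [hqe]
      unfold pv
      rw [Rat.cast_natCast, Padic.norm_p]
    · have h6 : pv p (q : ℚ) = 1 := by
        unfold pv
        rw [Rat.cast_natCast, Padic.norm_natCast_eq_one_iff]
        exact (Nat.coprime_primes Fact.out hqp).2 (Ne.symm hqe)
      rw [h6]
      exact (inv_lt_one_of_one_lt₀ hp1).le
  -- `|x'| ≥ p ^ 2`
  have hx0 : (x' : ℚ_[p]) ≠ 0 := by
    intro h9
    unfold pv at hx1
    rw [h9, norm_zero] at hx1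
    linarith
  have hy0 : (y' : ℚ_[p]) ≠ 0 := by
    intro h9
    unfold pv at hyR
    rw [h9, norm_zero] at hyR
    have : 0 < R' ^ 3 := by positivity
    linarith
  have vx : pv p x' = (p : ℝ) ^ (-(Padic.valuation (x' : ℚ_[p]))) :=
    Padic.norm_eq_zpow_neg_valuation hx0
  have vy : pv p y' = (p : ℝ) ^ (-(Padic.valuation (y' : ℚ_[p]))) :=
    Padic.norm_eq_zpow_neg_valuation hy0
  set a := Padic.valuation (x' : ℚ_[p]) with ha
  set b := Padic.valuation (y' : ℚ_[p]) with hb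
  have hab : -b * 2 = -a * 3 := by
    rw [vx, vy, ← zpow_natCast, ← zpow_natCast, ← zpow_mul, ← zpow_mul] at hy'
    exact zpow_right_injective₀ (by linarith) hp1.ne' hy'
  have ha0 : 0 < -a := by
    rw [vx] at hx1
    by_contra hcon
    push Not at hcon
    have := zpow_le_one_of_nonpos₀ hp1.le hcon
    linarith
  have ha2 : 2 ≤ -a := by omega
  have hx2 : (p : ℝ) ^ 2 ≤ pv p x' := by
    rw [vx]
    have := zpow_le_zpow_right₀ hp1.le ha2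
    simpa using this
  have hfin : (p : ℝ)⁻¹ * (p : ℝ) ^ 2 ≤ 1 := by
    calc (p : ℝ)⁻¹ * (p : ℝ) ^ 2 ≤ pv p (q : ℚ) * pv p x' :=
          mul_le_mul hqle hx2 (by positivity) (pv_nonneg p _)
      _ ≤ 1 := i3
  have : (p : ℝ)⁻¹ * (p : ℝ) ^ 2 = p := by
    field_simp
  linarith

end Pool.Agent.helper45.Tw
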